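import Mathlib

namespace Pool.Agent.Results.MP_aaa104_nt.Disproof

/-- `n`-smooth positive integers. -/
def Smooth (n m : ℕ) : Prop := 0 < m ∧ ∀ p, p.Prime → p ∣ m → p ≤ n

/-- The group of quotients of `n`-smooth numbers. -/
def K (n : ℕ) : Set ℚ := {x | ∃ a b : ℕ, Smooth n a ∧ Smooth n b ∧ x = a / b}

/-- `n`-satisfactory colourings of `K n` (only the values on `K n` matter). -/
def Sat (n : ℕ) (c : ℚ → ℕ) : Prop :=
  (∀ x ∈ K n, 1 ≤ c x ∧ c x ≤ n) ∧ (∀ i : ℕ, 1 ≤ i → i ≤ n → c i = i) ∧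
    ∀ x ∈ K n, ∀ i j : ℕ, 1 ≤ i → i < j → j ≤ n → c (i * x) ≠ c (j * x)

/-- The colour class of colour `k`. -/
def Cls (n : ℕ) (c : ℚ → ℕ) (k : ℕ) : Set ℚ := {x | x ∈ K n ∧ c x = k}

def col (a b e : ℤ) : ℕ :=
  match ((a + b) % 3).toNat, ((a + e + if a + b = 3 then 1 else 0) % 2).toNat with
  | 0, 0 => 1 | 0, _ => 5 | 1, 0 => 3 | 1, _ => 2 | _, 0 => 4 | _, _ => 6

def c0 (x : ℚ) : ℕ := col (padicValRat 2 x) (padicValRat 3 x) (padicValRat 5 x)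

instance : Fact (Nat.Prime 5) := ⟨by norm_num⟩

theorem c0_mul (a b e : ℕ) (x : ℚ) (hx : x ≠ 0) : c0 ((2 ^ a * 3 ^ b * 5 ^ e : ℕ) * x) =
    col (a + padicValRat 2 x) (b + padicValRat 3 x) (e + padicValRat 5 x) := by
  have h : ((2 ^ a * 3 ^ b * 5 ^ e : ℕ) : ℚ) ≠ 0 := by positivity
  have v : ∀ p q : ℕ, p.Prime → q.Prime → p ≠ q → padicValNat p q = 0 := fun p q hp hq h =>
    padicValNat.eq_zero_of_not_dvd fun d => h ((Nat.prime_dvd_prime_iff_eq hp hq).1 d)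
  unfold c0
  rw [padicValRat.mul h hx, padicValRat.mul h hx, padicValRat.mul h hx]
  simp only [padicValRat.of_nat]
  rw [padicValNat.mul, padicValNat.mul, padicValNat.mul, padicValNat.mul, padicValNat.mul,
    padicValNat.mul] <;> try positivity
  simp only [padicValNat.pow, padicValNat_self]
  rw [v 2 3, v 2 5, v 3 2, v 3 5, v 5 2, v 5 3] <;> norm_num

theorem c0_nat (a b e : ℕ) : c0 ((2 ^ a * 3 ^ b * 5 ^ e : ℕ) : ℚ) = col a b e := by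
  simpa using c0_mul a b e 1 one_ne_zero

theorem col_ne (a b e a' b' e' : ℤ) (h : (a + b) % 3 ≠ (a' + b') % 3 ∨
    (a + b = a' + b' ∧ (a + e) % 2 ≠ (a' + e') % 2)) : col a b e ≠ col a' b' e' := by
  unfold col
  have h1 : (a + b) % 3 = 0 ∨ (a + b) % 3 = 1 ∨ (a + b) % 3 = 2 := by omega
  have h2 : (a' + b') % 3 = 0 ∨ (a' + b') % 3 = 1 ∨ (a' + b') % 3 = 2 := by omega
  have h3 : (a + e + if a + b = 3 then 1 else 0) % 2 = 0 ∨
      (a + e + if a + b = 3 then 1 else 0) % 2 = 1 := by omega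
  have h4 : (a' + e' + if a' + b' = 3 then 1 else 0) % 2 = 0 ∨
      (a' + e' + if a' + b' = 3 then 1 else 0) % 2 = 1 := by omega
  rcases h1 with h1 | h1 | h1 <;> rcases h2 with h2 | h2 | h2 <;> rcases h3 with h3 | h3 <;>
    rcases h4 with h4 | h4 <;> rw [h1, h2, h3, h4] <;> first | decide | (exfalso; omega)

theorem sat : Sat 6 c0 := by
  refine ⟨fun x _ => ?_, fun i h1 h2 => ?_, fun x hx i j h1 h2 h3 => ?_⟩
  · unfold c0 col; split <;> norm_num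
  · interval_cases i
    exacts [c0_nat 0 0 0, c0_nat 1 0 0, c0_nat 0 1 0, c0_nat 2 0 0, c0_nat 0 0 1, c0_nat 1 1 0]
  · obtain ⟨a, b, ha, hb, e⟩ := hx
    have x0 : x ≠ 0 := by have := ha.1; have := hb.1; rw [e]; positivity
    have e1 := c0_mul 0 0 0 x x0; have e2 := c0_mul 1 0 0 x x0; have e3 := c0_mul 0 1 0 x x0
    have e4 := c0_mul 2 0 0 x x0; have e5 := c0_mul 0 0 1 x x0; have e6 := c0_mul 1 1 0 x x0
    norm_num only at e1 e2 e3 e4 e5 e6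
    interval_cases j <;> interval_cases i <;> simp only [Nat.cast_ofNat, Nat.cast_one, e1, e2, e3, e4, e5, e6] <;>
      exact col_ne _ _ _ _ _ _ (by omega)

theorem mem (a : ℕ) : ((2 ^ a : ℕ) : ℚ) ∈ K 6 :=
  ⟨2 ^ a, 1, ⟨by positivity, fun p hp h => by
    have := Nat.le_of_dvd two_pos (hp.dvd_of_dvd_pow h); omega⟩,
    ⟨one_pos, fun p hp h => absurd (Nat.dvd_one.1 h) hp.ne_one⟩, by simp⟩

theorem result :
    (∃ c, Sat 6 c ∧ ∀ j, (fun x => (4 : ℚ) * x) '' Cls 6 c 2 ≠ Cls 6 c j) ∧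
    ¬ ∀ n, 1 ≤ n → ∀ c, Sat n c → ∀ k, 1 ≤ k → k ≤ n →
      {S | ∃ i : ℕ, 1 ≤ i ∧ i ≤ n ∧ S = (fun x => (i : ℚ) * x) '' Cls n c k} =
        {S | ∃ j, 1 ≤ j ∧ j ≤ n ∧ S = Cls n c j} := by
  have A : ∀ j, (fun x => (4 : ℚ) * x) '' Cls 6 c0 2 ≠ Cls 6 c0 j := by
    intro j h
    have h1 : ((2 ^ 3 : ℕ) : ℚ) ∈ Cls 6 c0 j :=
      h ▸ ⟨(2 ^ 1 : ℕ), ⟨mem 1, c0_nat 1 0 0⟩, by norm_num⟩
    have h2 : ((2 ^ 9 : ℕ) : ℚ) ∈ Cls 6 c0 j :=
      h ▸ ⟨(2 ^ 7 : ℕ), ⟨mem 7, c0_nat 7 0 0⟩, by norm_num⟩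
    have := ((c0_nat 3 0 0).symm.trans h1.2).trans ((c0_nat 9 0 0).symm.trans h2.2).symm
    revert this; decide
  refine ⟨⟨c0, sat, A⟩, fun h => ?_⟩
  obtain ⟨j, -, -, e⟩ := (h 6 (by norm_num) c0 sat 2 (by norm_num) (by norm_num)).subset
    ⟨4, by norm_num, by norm_num, rfl⟩
  exact A j (by simpa using e)

end Pool.Agent.Results.MP_aaa104_nt.Disproof
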